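import Mathlib
import Pool.Agent.X188.CRExt

/-! A pair `(A_c, B_c)` that admits a closed-range extension although neither `ran A₀` nor
`ran A` is closed. -/

set_option autoImplicit false
set_option linter.unusedSectionVars false
open scoped InnerProductSpace Topology ENNReal
open Pool.Agent.X188.CRExt

namespace Pool.Agent.Results.MP_790317_an.NonClosedRanges

noncomputable section

variable {𝕜 : Type} [RCLike 𝕜] {H₀ H₁ : Type}
  [NormedAddCommGroup H₀] [InnerProductSpace 𝕜 H₀] [CompleteSpace H₀]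
  [NormedAddCommGroup H₁] [InnerProductSpace 𝕜 H₁] [CompleteSpace H₁]

/-- The standing assumption: `A_c`, `B_c` densely defined with `A_c ⊆ - B_c^*`. -/
structure IsPair (Ac : H₀ →ₗ.[𝕜] H₁) (Bc : H₁ →ₗ.[𝕜] H₀) : Prop where
  dense_A : Dense (Ac.domain : Set H₀)
  dense_B : Dense (Bc.domain : Set H₁)
  le : Ac ≤ -(LinearPMap.adjoint Bc)

/-- `A₀`, the closure of `A_c`. -/
def lower (Ac : H₀ →ₗ.[𝕜] H₁) : H₀ →ₗ.[𝕜] H₁ := Ac.closure

/-- `A = - B₀^*` where `B₀` is the closure of `B_c`. -/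
def upper (Bc : H₁ →ₗ.[𝕜] H₀) : H₀ →ₗ.[𝕜] H₁ := -(LinearPMap.adjoint Bc.closure)

/-- The pair `(A_c, B_c)` admits a closed-range extension. -/
def HasClosedRangeExtension (Ac : H₀ →ₗ.[𝕜] H₁) (Bc : H₁ →ₗ.[𝕜] H₀) : Prop :=
  ∃ (X Y : Type) (_ : NormedAddCommGroup X) (_ : InnerProductSpace 𝕜 X) (_ : CompleteSpace X)
    (_ : NormedAddCommGroup Y) (_ : InnerProductSpace 𝕜 Y) (_ : CompleteSpace Y)
    (𝒜 : X →ₗ.[𝕜] Y) (ιX : H₀ →ₗᵢ[𝕜] X) (ιY : H₁ →ₗᵢ[𝕜] Y),
    Dense (𝒜.domain : Set X) ∧ 𝒜.IsClosed ∧ IsClosed (Set.range 𝒜) ∧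
    (∀ x : (lower Ac).domain, ∃ h : ιX x ∈ 𝒜.domain, 𝒜 ⟨ιX x, h⟩ = ιY (lower Ac x)) ∧
    (∀ y : Bc.closure.domain, ∃ h : ιY y ∈ (LinearPMap.adjoint 𝒜).domain,
      -(LinearPMap.adjoint 𝒜 ⟨ιY y, h⟩) = ιX (Bc.closure y))

theorem closure_eq {f : H₀ →ₗ.[𝕜] H₁} (hf : f.IsClosed) : f.closure = f := by
  apply LinearPMap.eq_of_eq_graph
  rw [← hf.isClosable.graph_closure_eq_closure_graph]
  exact hf.submodule_topologicalClosure_eq

theorem mem_neg_graph {f : H₀ →ₗ.[𝕜] H₁} {x : H₀} {y : H₁} :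
    (x, y) ∈ (-f).graph ↔ (x, -y) ∈ f.graph := by
  rw [LinearPMap.neg_graph]
  constructor
  · rintro ⟨⟨a, b⟩, h, h2⟩
    have h3 : a = x := congrArg Prod.fst h2
    have h4 : -b = y := congrArg Prod.snd h2
    subst h3 h4
    rw [neg_neg]
    exact h
  · intro h
    refine ⟨(x, -y), h, ?_⟩
    change (x, - -y) = (x, y)
    rw [neg_neg]

/-- graph of `-g` -/
def negG (g : Submodule 𝕜 (H₀ × H₁)) : Submodule 𝕜 (H₀ × H₁) :=
  g.comap (((ContinuousLinearMap.id 𝕜 H₀).prodMap (-(ContinuousLinearMap.id 𝕜 H₁)) :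
    H₀ × H₁ →L[𝕜] H₀ × H₁) : H₀ × H₁ →ₗ[𝕜] H₀ × H₁)

theorem mem_negG {g : Submodule 𝕜 (H₀ × H₁)} {p : H₀ × H₁} : p ∈ negG g ↔ (p.1, -p.2) ∈ g := Iff.rfl

theorem negG_adjoint (g : Submodule 𝕜 (H₀ × H₁)) : (negG g).adjoint = negG g.adjoint := by
  ext ⟨y, z⟩
  rw [Submodule.mem_adjoint_iff, mem_negG, Submodule.mem_adjoint_iff]
  constructor
  · intro h a b hab
    have h1 := h a (-b) (by rw [mem_negG]; simpa using hab)
    simp only [inner_neg_left] at h1
    simp only [inner_neg_right]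
    linear_combination -h1
  · intro h a b hab
    have h1 := h a (-b) hab
    simp only [inner_neg_left, inner_neg_right] at h1
    linear_combination -h1

theorem isClosed_of_graph {f : H₀ →ₗ.[𝕜] H₁} {g : Submodule 𝕜 (H₀ × H₁)} (h : f.graph = g)
    (hg : IsClosed (g : Set (H₀ × H₁))) : f.IsClosed := by
  unfold LinearPMap.IsClosed
  rw [h]
  exact hg

/-- The operator with a given graph -/
theorem graph_toP {g : Submodule 𝕜 (H₀ × H₁)} (hg : ∀ x ∈ g, x.fst = 0 → x.snd = 0) :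
    g.toLinearPMap.graph = g := Submodule.toLinearPMap_graph_eq g hg

theorem range_eq {f : H₀ →ₗ.[𝕜] H₁} : Set.range f = {y | ∃ x, (x, y) ∈ f.graph} := by
  ext y
  exact LinearPMap.mem_range_iff

section Abs

variable {E K : Type} [NormedAddCommGroup E] [InnerProductSpace 𝕜 E] [CompleteSpace E]
  [NormedAddCommGroup K] [InnerProductSpace 𝕜 K] [CompleteSpace K]
  {d : E →L[𝕜] E} {C : K →L[𝕜] K} {J : E →L[𝕜] K}

theorem dense_Ag (h : Good d C J) (v : PP E K)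
    (hv : ∀ w : K, ⟪(WithLp.toLp 2 ((ContinuousLinearMap.adjoint J) w, C w) : PP E K), v⟫_𝕜 = 0) :
    v = 0 := by
  have h1 : J v.fst + C v.snd = 0 := by
    apply ext_inner_left 𝕜
    intro w
    have := hv w
    rw [WithLp.prod_inner_apply] at this
    change ⟪(ContinuousLinearMap.adjoint J) w, v.fst⟫_𝕜 + ⟪C w, v.snd⟫_𝕜 = 0 at this
    rw [ContinuousLinearMap.adjoint_inner_left, h.Csym] at this
    rw [inner_add_right, this, inner_zero_right]
  obtain ⟨h2, h3⟩ := h.inj _ _ h1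
  apply WithLp.ofLp_injective 2
  exact Prod.ext h2 h3

theorem dense_of_orth {V : Type} [NormedAddCommGroup V] [InnerProductSpace 𝕜 V] [CompleteSpace V]
    (S : Submodule 𝕜 V) (hS : ∀ v, (∀ s ∈ S, ⟪s, v⟫_𝕜 = 0) → v = 0) : Dense (S : Set V) := by
  rw [Submodule.dense_iff_topologicalClosure_eq_top, Submodule.topologicalClosure_eq_top_iff]
  rw [Submodule.eq_bot_iff]
  intro v hv
  exact hS v (fun s hs => hv s hs)

/-- density of the domain for direct sums of graphs that contain `Ag` -/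
theorem dense_dom (h : Good d C J) {g₁ g₂ : Submodule 𝕜 (PP E K × PP E K)}
    (h₁ : Ag d C J ≤ g₁) (h₂ : Ag d C J ≤ g₂)
    (f : PP (PP E K) (PP E K) →ₗ.[𝕜] PP (PP E K) (PP E K))
    (hf : ∀ x y, (x, y) ∈ gsum g₁ g₂ → x ∈ f.domain) :
    Dense (f.domain : Set (PP (PP E K) (PP E K))) := by
  apply dense_of_orth
  intro v hv
  have m : ∀ w : K, ((WithLp.toLp 2 ((ContinuousLinearMap.adjoint J) w, C w) : PP E K),
      (WithLp.toLp 2 (d ((ContinuousLinearMap.adjoint J) w), w) : PP E K)) ∈ Ag d C J := by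
    intro w
    rw [mem_Ag]
    exact ⟨⟨rfl, rfl⟩, rfl⟩
  have h3 : v.fst = 0 := by
    apply dense_Ag h
    intro w
    have := hv (WithLp.toLp 2 (WithLp.toLp 2 ((ContinuousLinearMap.adjoint J) w, C w), 0))
      (hf _ (WithLp.toLp 2 (WithLp.toLp 2 (d ((ContinuousLinearMap.adjoint J) w), w), 0))
        ⟨h₁ (m w), g₂.zero_mem⟩)
    rw [WithLp.prod_inner_apply] at this
    simpa using this
  have h4 : v.snd = 0 := by
    apply dense_Ag h
    intro w
    have := hv (WithLp.toLp 2 (0, WithLp.toLp 2 ((ContinuousLinearMap.adjoint J) w, C w)))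
      (hf _ (WithLp.toLp 2 (0, WithLp.toLp 2 (d ((ContinuousLinearMap.adjoint J) w), w)))
        ⟨g₁.zero_mem, h₂ (m w)⟩)
    rw [WithLp.prod_inner_apply] at this
    simpa using this
  apply WithLp.ofLp_injective 2
  exact Prod.ext h3 h4

theorem range_d_not_closed (h : Good d C J) : ¬ IsClosed (Set.range d) := by
  intro hc
  have h1 : Dense ((LinearMap.range (d : E →ₗ[𝕜] E)) : Set E) := by
    apply dense_of_orth
    intro v hv
    apply h.ddense
    apply ext_inner_left 𝕜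
    intro w
    rw [← h.dsym, inner_zero_right]
    exact hv _ ⟨w, rfl⟩
  have h2 : IsClosed ((LinearMap.range (d : E →ₗ[𝕜] E)) : Set E) := hc
  obtain ⟨e, he⟩ := h.dnon
  have h3 : e ∈ closure ((LinearMap.range (d : E →ₗ[𝕜] E)) : Set E) := h1 e
  rw [h2.closure_eq] at h3
  obtain ⟨u, hu⟩ := h3
  exact he u hu

theorem of_graph {A B : Type} [AddCommGroup A] [Module 𝕜 A] [AddCommGroup B] [Module 𝕜 B]
    {f : A →ₗ.[𝕜] B} {x : A} {y : B} (h : (x, y) ∈ f.graph) :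
    ∃ hx : x ∈ f.domain, f ⟨x, hx⟩ = y := by
  rw [LinearPMap.mem_graph_iff] at h
  obtain ⟨⟨z, hz⟩, h1, h2⟩ := h
  simp only at h1 h2
  subst h1
  exact ⟨hz, h2⟩

theorem gsum_mono {g₁ g₂ g₁' g₂' : Submodule 𝕜 (PP E K × PP E K)} (h₁ : g₁ ≤ g₁') (h₂ : g₂ ≤ g₂') :
    gsum g₁ g₂ ≤ gsum g₁' g₂' := fun _ hx => ⟨h₁ hx.1, h₂ hx.2⟩

/-- **The abstract construction.** -/
theorem abs_example (h : Good d C J) :
    ∃ (Ac Bc : PP (PP E K) (PP E K) →ₗ.[𝕜] PP (PP E K) (PP E K)),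
      IsPair Ac Bc ∧ HasClosedRangeExtension Ac Bc ∧
      ¬ IsClosed (Set.range (lower Ac)) ∧ ¬ IsClosed (Set.range (upper Bc)) := by
  set gLL := gsum (Ag d C J) (Dg d C) with hgLL
  set GB := gsum (Dg d C) (Ag d C J) with hGB
  set GA := gsum (Ag d C J) (Sg d C J) with hGA
  have hAS : Ag d C J ≤ Sg d C J := Ag_le_Dg.trans (Dg_le_Sg h)
  have fL : ∀ x ∈ gLL, x.fst = 0 → x.snd = 0 := gsum_fun (fun_Ag h) (fun_Dg h)
  have fB0 : ∀ x ∈ GB, x.fst = 0 → x.snd = 0 := gsum_fun (fun_Dg h) (fun_Ag h)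
  have fB : ∀ x ∈ negG GB, x.fst = 0 → x.snd = 0 := by
    rintro ⟨x, y⟩ hx h0
    have := fB0 (x, -y) hx h0
    exact neg_eq_zero.1 this
  have fA : ∀ x ∈ GA, x.fst = 0 → x.snd = 0 := gsum_fun (fun_Ag h) (fun_Sg h)
  let Ac := gLL.toLinearPMap
  let Bc := (negG GB).toLinearPMap
  let 𝒜 := GA.toLinearPMap
  have gL : Ac.graph = gLL := graph_toP fL
  have gB : Bc.graph = negG GB := graph_toP fB
  have gA : 𝒜.graph = GA := graph_toP fA
  have dL : Dense (Ac.domain : Set (PP (PP E K) (PP E K))) := by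
    refine dense_dom h le_rfl Ag_le_Dg Ac (fun x y hxy => ?_)
    rw [← hgLL, ← gL] at hxy
    exact LinearPMap.mem_domain_of_mem_graph hxy
  have dA : Dense (𝒜.domain : Set (PP (PP E K) (PP E K))) := by
    refine dense_dom h le_rfl hAS 𝒜 (fun x y hxy => ?_)
    rw [← hGA, ← gA] at hxy
    exact LinearPMap.mem_domain_of_mem_graph hxy
  have dB : Dense (Bc.domain : Set (PP (PP E K) (PP E K))) := by
    refine dense_dom h Ag_le_Dg le_rfl Bc (fun x y hxy => ?_)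
    rw [← hGB] at hxy
    have h2 : (x, -y) ∈ Bc.graph := by
      rw [gB, mem_negG]
      simpa using hxy
    exact LinearPMap.mem_domain_of_mem_graph h2
  have cL : Ac.IsClosed := isClosed_of_graph gL (gsum_closed closed_Ag closed_Dg)
  have cB : Bc.IsClosed := isClosed_of_graph gB
    ((gsum_closed closed_Dg closed_Ag).preimage (ContinuousLinearMap.continuous _))
  have cA : 𝒜.IsClosed := isClosed_of_graph gA (gsum_closed closed_Ag closed_Sg)
  have gU : ∀ x y, (x, y) ∈ (-(LinearPMap.adjoint Bc)).graph ↔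
      (x, y) ∈ gsum (Dg d C) (Sg d C J) := by
    intro x y
    rw [mem_neg_graph, LinearPMap.adjoint_graph_eq_graph_adjoint dB, gB, negG_adjoint, mem_negG,
      gsum_adjoint, Dg_adjoint h, Ag_adjoint h, neg_neg]
  have eL : lower Ac = Ac := closure_eq cL
  have eB : Bc.closure = Bc := closure_eq cB
  have gA' : GB ≤ (LinearPMap.adjoint 𝒜).graph := by
    rw [LinearPMap.adjoint_graph_eq_graph_adjoint dA, gA, gsum_adjoint, Ag_adjoint h]
    refine gsum_mono (Dg_le_Sg h) ?_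
    rw [← Ag_adjoint h]
    exact le_adjoint_adjoint _
  refine ⟨Ac, Bc, ⟨dL, dB, ?_⟩, ?_, ?_, ?_⟩
  · apply LinearPMap.le_of_le_graph
    rintro ⟨x, y⟩ hx
    rw [gU]
    rw [gL] at hx
    exact gsum_mono Ag_le_Dg (Dg_le_Sg h) hx
  · refine ⟨_, _, _, _, inferInstance, _, _, inferInstance, 𝒜, LinearIsometry.id, LinearIsometry.id,
      dA, cA, ?_, ?_, ?_⟩
    · rw [range_eq]
      have e : {y | ∃ x, (x, y) ∈ 𝒜.graph} =
          {y : PP (PP E K) (PP E K) | y.fst.fst = d ((ContinuousLinearMap.adjoint J) y.fst.snd)} := by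
        ext y
        simp only [Set.mem_ofPred_eq, gA, hGA, mem_gsum]
        constructor
        · rintro ⟨x, hx, -⟩
          rw [mem_Ag] at hx
          obtain ⟨⟨h1, h2⟩, h3⟩ := hx
          simp only at h1 h2 h3
          rw [h2, h3]
        · intro hy
          refine ⟨WithLp.toLp 2 (WithLp.toLp 2 ((ContinuousLinearMap.adjoint J) y.fst.snd,
            C y.fst.snd), WithLp.toLp 2 (0, J y.snd.fst + C y.snd.snd)), ?_, ?_⟩
          · rw [mem_Ag]
            exact ⟨⟨rfl, hy⟩, rfl⟩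
          · rw [mem_Sg]
            change J y.snd.fst + C y.snd.snd = J (y.snd.fst - d 0) + C y.snd.snd
            rw [map_zero, sub_zero]
      rw [e]
      have c1 : Continuous (fun y : PP (PP E K) (PP E K) => y.fst.fst) :=
        ((WithLp.fstL 2 𝕜 E K) ∘L (WithLp.fstL 2 𝕜 (PP E K) (PP E K))).continuous
      have c2 : Continuous (fun y : PP (PP E K) (PP E K) => y.fst.snd) :=
        ((WithLp.sndL 2 𝕜 E K) ∘L (WithLp.fstL 2 𝕜 (PP E K) (PP E K))).continuous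
      exact isClosed_eq c1 (d.continuous.comp ((ContinuousLinearMap.adjoint J).continuous.comp c2))
    · rw [eL]
      intro x
      apply of_graph
      rw [gA]
      have h1 : ((x : PP (PP E K) (PP E K)), Ac x) ∈ gLL := by
        rw [← gL]
        exact Ac.mem_graph x
      exact gsum_mono le_rfl (Dg_le_Sg h) h1
    · rw [eB]
      intro y
      have h1 : ((y : PP (PP E K) (PP E K)), Bc y) ∈ negG GB := by
        rw [← gB]
        exact Bc.mem_graph y
      rw [mem_negG] at h1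
      obtain ⟨h2, h3⟩ := of_graph (gA' h1)
      refine ⟨h2, ?_⟩
      have h4 : (LinearPMap.adjoint 𝒜) ⟨(LinearIsometry.id : PP (PP E K) (PP E K) →ₗᵢ[𝕜] _) y, h2⟩ = - Bc y := h3
      rw [h4, neg_neg]
      rfl
  · intro hc
    rw [eL, range_eq] at hc
    apply range_d_not_closed h
    have e : Set.range d = (fun e : E => (WithLp.toLp 2 (0, WithLp.toLp 2 (e, 0)) :
        PP (PP E K) (PP E K))) ⁻¹' {y | ∃ x, (x, y) ∈ Ac.graph} := by
      ext e
      simp only [Set.mem_range, Set.mem_preimage, Set.mem_ofPred_eq, gL, hgLL, mem_gsum]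
      constructor
      · rintro ⟨u, rfl⟩
        refine ⟨WithLp.toLp 2 (0, WithLp.toLp 2 (u, 0)), (Ag d C J).zero_mem, ?_⟩
        rw [mem_Dg]
        exact ⟨(map_zero C).symm, rfl⟩
      · rintro ⟨x, -, hx⟩
        rw [mem_Dg] at hx
        exact ⟨_, hx.2.symm⟩
    rw [e]
    refine hc.preimage ?_
    refine (WithLp.prod_continuous_toLp 2 _ _).comp (continuous_const.prodMk ?_)
    exact (WithLp.prod_continuous_toLp 2 _ _).comp (continuous_id.prodMk continuous_const)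
  · intro hc
    rw [range_eq] at hc
    apply range_d_not_closed h
    have e : Set.range d = (fun e : E => (WithLp.toLp 2 (WithLp.toLp 2 (e, 0), 0) :
        PP (PP E K) (PP E K))) ⁻¹' {y | ∃ x, (x, y) ∈ (upper Bc).graph} := by
      ext e
      simp only [Set.mem_range, Set.mem_preimage, Set.mem_ofPred_eq, upper, eB, gU, mem_gsum]
      constructor
      · rintro ⟨u, rfl⟩
        refine ⟨WithLp.toLp 2 (WithLp.toLp 2 (u, 0), 0), ?_, (Sg d C J).zero_mem⟩
        rw [mem_Dg]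
        exact ⟨(map_zero C).symm, rfl⟩
      · rintro ⟨x, hx, -⟩
        rw [mem_Dg] at hx
        exact ⟨_, hx.2.symm⟩
    rw [e]
    refine hc.preimage ?_
    refine (WithLp.prod_continuous_toLp 2 _ _).comp (Continuous.prodMk ?_ continuous_const)
    exact (WithLp.prod_continuous_toLp 2 _ _).comp (continuous_id.prodMk continuous_const)

end Abs

section Concrete

variable (𝕜)

/-- `ℓ²(ℕ)` -/
abbrev EE : Type := lp (fun _ : ℕ => 𝕜) 2
/-- `ℓ²(ℕ × ℕ)` -/
abbrev KK : Type := lp (fun _ : ℕ × ℕ => 𝕜) 2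

/-- the weights `1 / (n + 1)` -/
def wt (n : ℕ) : ℝ := ((n : ℝ) + 1)⁻¹

theorem wt_pos (n : ℕ) : 0 < wt n := by unfold wt; positivity
theorem wt_le (n : ℕ) : wt n ≤ 1 := by
  unfold wt
  apply inv_le_one_of_one_le₀
  have : (0 : ℝ) ≤ n := n.cast_nonneg
  linarith

theorem mem_mul {ι : Type} (a : ι → ℝ) (h0 : ∀ i, 0 ≤ a i) (h1 : ∀ i, a i ≤ 1)
    (x : lp (fun _ : ι => 𝕜) 2) : Memℓp (fun i => (a i : 𝕜) * (x : ι → 𝕜) i) 2 := by
  have h := lp.memℓp x
  rw [memℓp_gen_iff (by norm_num)] at h ⊢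
  refine Summable.of_nonneg_of_le (fun i => by positivity) (fun i => ?_) h
  apply Real.rpow_le_rpow (norm_nonneg _) _ (by norm_num)
  rw [norm_mul, RCLike.norm_ofReal, abs_of_nonneg (h0 i)]
  exact mul_le_of_le_one_left (norm_nonneg _) (h1 i)

/-- a linear map into `ℓ²` whose coordinates are continuous is continuous -/
def mkL {V ι : Type} [NormedAddCommGroup V] [NormedSpace 𝕜 V] [CompleteSpace V]
    (f : V →ₗ[𝕜] lp (fun _ : ι => 𝕜) 2) (hf : ∀ i, Continuous fun v => (f v : ι → 𝕜) i) :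
    V →L[𝕜] lp (fun _ : ι => 𝕜) 2 where
  toLinearMap := f
  cont := by
    apply LinearMap.continuous_of_isClosed_graph
    have : (f.graph : Set (V × lp (fun _ : ι => 𝕜) 2)) =
        ⋂ i, {p | (p.2 : ι → 𝕜) i = (f p.1 : ι → 𝕜) i} := by
      ext p
      simp only [SetLike.mem_coe, LinearMap.mem_graph_iff, Set.mem_iInter, Set.mem_ofPred_eq]
      constructor
      · intro h i
        rw [h]
      · intro h
        ext i
        exact h i
    rw [this]
    apply isClosed_iInter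
    intro i
    have c1 : Continuous fun p : V × lp (fun _ : ι => 𝕜) 2 => (p.2 : ι → 𝕜) i :=
      (lp.evalCLM 𝕜 (fun _ : ι => 𝕜) 2 i).continuous.comp continuous_snd
    exact isClosed_eq c1 ((hf i).comp continuous_fst)

/-- a multiplication operator on `ℓ²` -/
def dg {ι : Type} (a : ι → ℝ) (h0 : ∀ i, 0 ≤ a i) (h1 : ∀ i, a i ≤ 1) :
    lp (fun _ : ι => 𝕜) 2 →L[𝕜] lp (fun _ : ι => 𝕜) 2 :=
  mkL 𝕜
    { toFun := fun x => ⟨fun i => (a i : 𝕜) * (x : ι → 𝕜) i, mem_mul 𝕜 a h0 h1 x⟩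
      map_add' := fun x y => by ext i; exact mul_add _ _ _
      map_smul' := fun c x => by ext i; exact mul_left_comm _ _ _ }
    (fun i => continuous_const.mul (lp.evalCLM 𝕜 (fun _ : ι => 𝕜) 2 i).continuous)

theorem dg_apply {ι : Type} (a : ι → ℝ) (h0 : ∀ i, 0 ≤ a i) (h1 : ∀ i, a i ≤ 1)
    (x : lp (fun _ : ι => 𝕜) 2) (i : ι) : (dg 𝕜 a h0 h1 x : ι → 𝕜) i = (a i : 𝕜) * (x : ι → 𝕜) i :=
  rfl

theorem dg_sym {ι : Type} (a : ι → ℝ) (h0 : ∀ i, 0 ≤ a i) (h1 : ∀ i, a i ≤ 1)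
    (x y : lp (fun _ : ι => 𝕜) 2) : ⟪dg 𝕜 a h0 h1 x, y⟫_𝕜 = ⟪x, dg 𝕜 a h0 h1 y⟫_𝕜 := by
  rw [lp.inner_eq_tsum, lp.inner_eq_tsum]
  congr 1
  ext i
  rw [dg_apply, dg_apply]
  simp only [RCLike.inner_apply, map_mul, RCLike.conj_ofReal]
  ring

theorem summable_wt : Summable fun n => wt n ^ 2 := by
  have h := (summable_nat_add_iff 1).2 (Real.summable_one_div_nat_pow.2 (one_lt_two))
  refine h.congr (fun n => ?_)
  unfold wt
  push_cast
  rw [one_div, inv_pow]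

theorem mem_J (x : EE 𝕜) : Memℓp (fun i : ℕ × ℕ => (wt i.2 : 𝕜) * (x : ℕ → 𝕜) i.1) 2 := by
  have h := lp.memℓp x
  rw [memℓp_gen_iff (by norm_num)] at h ⊢
  have h2 := Summable.mul_of_nonneg h summable_wt (fun n => by positivity) (fun n => by positivity)
  refine h2.congr (fun i => ?_)
  rw [norm_mul, RCLike.norm_ofReal, abs_of_pos (wt_pos _)]
  simp only [ENNReal.toReal_ofNat, Real.rpow_ofNat]
  ring

/-- `(J u)_{n,j} = u_n / (j + 1)` -/
def JJ : EE 𝕜 →L[𝕜] KK 𝕜 :=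
  mkL 𝕜
    { toFun := fun x => ⟨fun i => (wt i.2 : 𝕜) * (x : ℕ → 𝕜) i.1, mem_J 𝕜 x⟩
      map_add' := fun x y => by ext i; exact mul_add _ _ _
      map_smul' := fun c x => by ext i; exact mul_left_comm _ _ _ }
    (fun i => continuous_const.mul (lp.evalCLM 𝕜 (fun _ : ℕ => 𝕜) 2 i.1).continuous)

theorem JJ_apply (x : EE 𝕜) (i : ℕ × ℕ) : (JJ 𝕜 x : ℕ × ℕ → 𝕜) i = (wt i.2 : 𝕜) * (x : ℕ → 𝕜) i.1 :=
  rfl

/-- `d u = (u_n / (n + 1))_n` -/
def dd : EE 𝕜 →L[𝕜] EE 𝕜 := dg 𝕜 wt (fun i => (wt_pos i).le) wt_le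
/-- `C v = (v_{n,j} / (j + 1))` -/
def CC : KK 𝕜 →L[𝕜] KK 𝕜 := dg 𝕜 (fun i => wt i.2) (fun i => (wt_pos i.2).le) (fun i => wt_le i.2)

theorem wt_ne (n : ℕ) : (wt n : 𝕜) ≠ 0 := by
  have := (wt_pos n).ne'
  exact_mod_cast this

theorem good : Good (dd 𝕜) (CC 𝕜) (JJ 𝕜) where
  dsym := dg_sym 𝕜 _ _ _
  Csym := dg_sym 𝕜 _ _ _
  inj := by
    intro u v h
    have h1 : ∀ n j, (v : ℕ × ℕ → 𝕜) (n, j) = - (u : ℕ → 𝕜) n := by
      intro n j
      have h2 : (JJ 𝕜 u + CC 𝕜 v : ℕ × ℕ → 𝕜) (n, j) = 0 := by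
        have := congrArg (fun z : KK 𝕜 => (z : ℕ × ℕ → 𝕜) (n, j)) h
        exact this
      have h3 : (wt j : 𝕜) * (u : ℕ → 𝕜) n + (wt j : 𝕜) * (v : ℕ × ℕ → 𝕜) (n, j) = 0 := h2
      rw [← mul_add] at h3
      have h4 := (mul_eq_zero.1 h3).resolve_left (wt_ne 𝕜 j)
      exact eq_neg_of_add_eq_zero_right h4
    have h5 : ∀ n, (u : ℕ → 𝕜) n = 0 := by
      intro n
      have h6 := lp.memℓp v
      rw [memℓp_gen_iff (by norm_num)] at h6
      have h7 := h6.comp_injective (i := fun j : ℕ => (n, j)) (fun a b hab => (Prod.ext_iff.1 hab).2)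
      have h8 := h7.tendsto_atTop_zero
      have h9 : Filter.Tendsto (fun _ : ℕ => ‖(u : ℕ → 𝕜) n‖ ^ (2 : ℝ≥0∞).toReal) Filter.atTop (𝓝 0) := by
        refine h8.congr (fun j => ?_)
        simp only [Function.comp]
        rw [h1 n j, norm_neg]
      have h10 := tendsto_nhds_unique tendsto_const_nhds h9
      rw [Real.rpow_eq_zero (norm_nonneg _) (by norm_num)] at h10
      exact norm_eq_zero.1 h10
    constructor
    · ext n; exact h5 n
    · ext ⟨n, j⟩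
      rw [h1 n j, h5 n, neg_zero]
      rfl
  ddense := by
    intro v hv
    ext n
    have h1 : (wt n : 𝕜) * (v : ℕ → 𝕜) n = 0 := congrArg (fun z : EE 𝕜 => (z : ℕ → 𝕜) n) hv
    exact (mul_eq_zero.1 h1).resolve_left (wt_ne 𝕜 n)
  dnon := by
    have h0 : Memℓp (fun n => (wt n : 𝕜)) 2 := by
      rw [memℓp_gen_iff (by norm_num)]
      refine summable_wt.congr (fun n => ?_)
      rw [RCLike.norm_ofReal, abs_of_pos (wt_pos _)]
      simp
    refine ⟨⟨_, h0⟩, ?_⟩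
    intro u hu
    have h1 : ∀ n, (u : ℕ → 𝕜) n = 1 := by
      intro n
      have h2 : (wt n : 𝕜) * (u : ℕ → 𝕜) n = (wt n : 𝕜) :=
        congrArg (fun z : EE 𝕜 => (z : ℕ → 𝕜) n) hu
      exact mul_left_cancel₀ (wt_ne 𝕜 n) (by rw [h2, mul_one])
    have h6 := lp.memℓp u
    rw [memℓp_gen_iff (by norm_num)] at h6
    have h8 := h6.tendsto_atTop_zero
    have h9 : Filter.Tendsto (fun _ : ℕ => (1 : ℝ)) Filter.atTop (𝓝 0) := by
      refine h8.congr (fun j => ?_)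
      rw [h1 j]
      simp
    exact one_ne_zero (tendsto_nhds_unique tendsto_const_nhds h9)

end Concrete

/-- **Main result.** Over the real as well as over the complex numbers, there are Hilbert spaces
`H₀`, `H₁` and a pair `(A_c, B_c)` that admits a closed-range extension, while neither `ran A₀` nor
`ran A` is closed. -/
theorem result (𝕜 : Type) [RCLike 𝕜] :
    ∃ (H₀ H₁ : Type) (_ : NormedAddCommGroup H₀) (_ : InnerProductSpace 𝕜 H₀)
      (_ : CompleteSpace H₀) (_ : NormedAddCommGroup H₁) (_ : InnerProductSpace 𝕜 H₁)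
      (_ : CompleteSpace H₁) (Ac : H₀ →ₗ.[𝕜] H₁) (Bc : H₁ →ₗ.[𝕜] H₀),
      IsPair Ac Bc ∧ HasClosedRangeExtension Ac Bc ∧
      ¬ IsClosed (Set.range (lower Ac)) ∧ ¬ IsClosed (Set.range (upper Bc)) := by
  obtain ⟨Ac, Bc, h⟩ := abs_example (good 𝕜)
  exact ⟨_, _, _, _, inferInstance, _, _, inferInstance, Ac, Bc, h⟩

end

end Pool.Agent.Results.MP_790317_an.NonClosedRanges
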